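import Pool.Agent.GH.D3.Base3
import Pool.Agent.GH.LN.FExpN

/-!
# Ghost conjecture `(3,2)`: definitions used in the proof

`Ψ = E(q²)²/E(q)`, `A = (Ψ³/Ψ(q³))⁴` (weight four; `F_2 = qΨ⁸ = A f`), `h = f(q)`,
`g = f(q³) = h³/S(h)` with `S(f) = A(q³)/A(q)`; the matrix `Mat32 x` of `U_3` in the basis
`A^x f^j` of the forms of weight `4x` (before the factor `1 - f` is split off), with
`(θf)(q³)/f(q³) = R(f) θf/f`, `R = S⁻¹ n_s(h)/ψ_s(g)`. The weight `z^{4x}` is `w = 7^{4x} - 1`.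
-/

open PowerSeries Filter Topology

noncomputable section

namespace GH

namespace D32

theorem three_ne : (3 : ℕ) ≠ 0 := by norm_num

/-- `A = (Ψ³/Ψ(q³))⁴`, `Ψ = E(q²)²/E(q)`. -/
def A32 (R : Type*) [CommRing R] : PowerSeries R :=
  etaN 2 R ^ 12 * invOfUnit (etaNp 3 2 R) 1 ^ 4

/-- The series `S` in one variable `h` with `S(f(q)) = A(q³)/A(q)`. -/
def S32 (R : Type*) [CommRing R] : PowerSeries R :=
  PowerSeries.mk fun n ↦
    fcoeffN 3 2 ((A32 R).expand 3 three_ne * invOfUnit (A32 R) 1) n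

/-- `g = h³/S(h)`: `f(q³)` in terms of `h = f(q)`. -/
def gs32 (R : Type*) [CommRing R] : PowerSeries R := X ^ 3 * invOfUnit (S32 R) 1

/-- `n_s = (1-x)² (1-6x-3x²)`. -/
def ns32 {A : Type*} [CommRing A] (x : A) : A := (1 - x) ^ 2 * (1 - 6 * x - 3 * x ^ 2)

/-- `ψ_s = (1-9x)² (1+18x-27x²)`. -/
def ps32 {A : Type*} [CommRing A] (x : A) : A := (1 - 9 * x) ^ 2 * (1 + 18 * x - 27 * x ^ 2)

/-- The matrix of `U_3` in the basis `A^x f^j`: `[h^{3i-j}] S^{i-x-1} n_s(h)/ψ_s(g)`. -/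
def Mat32 {K : Type*} [Field K] (x : K) (i j : ℕ) : K :=
  if j ≤ 3 * i then
    PowerSeries.coeff (3 * i - j)
      (ppow (S32 K) ((i : K) - x - 1) *
        (ns32 (X : PowerSeries K) * invOfUnit (ps32 (gs32 K)) 1))
  else 0

/-- `A^x`, a form of weight `4x`. -/
def APow32 {K : Type*} [Field K] (x : K) : PowerSeries K := ppow (A32 K) x

/-- The theorem on the central disc: the Newton polygon of the Fredholm series on
`A^x f ℂ⟨f⟩` (eigenvalue `1` at the cusp `f = 1` and the cusp forms). -/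
def CentralTheorem32 : Prop :=
  ∀ x : D3.C3, ‖x‖ ≤ 1 →
    newtonPolygon 3 (fred (Mat32 x)) =
      newtonPolygon 3 (fun n ↦ if n < 1 then 1 else ghostN 3 2 0 (D3.wx3 (4 * x)) (n - 1))

end D32

end GH
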