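import Pool.Agent.GH.LN.PStm
import Pool.Agent.GH.LN.MtN
import Pool.Agent.GH.LN.SerN
import Pool.Agent.GH.D3.UBound3

/-!
# The bounds of the pair `(3,2)`
-/

open PowerSeries Filter Topology

noncomputable section

namespace GH

namespace D32

open LN D3

/-! ### The equation over `ℂ_3` -/

theorem lp1_eq (he : Eq32) : S32 C3 * (1 - gs32 C3) * (1 - 9 * gs32 C3) ^ 3 =
    (1 - (X : PowerSeries C3)) ^ 3 * (1 - 9 * X) := by
  have h1 := congrArg (PowerSeries.map (Int.castRingHom C3)) he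
  simp only [S32_eq, gs32_eq] at h1 ⊢
  simp only [map_mul, map_pow, map_sub, map_one, map_ofNat, PowerSeries.map_X, map_SN,
    map_gsN] at h1
  exact h1

theorem lp1_S0 : PowerSeries.constantCoeff (S32 C3) = 1 := by
  rw [S32_eq]
  exact constantCoeff_SN 3 2 three_ne C3

theorem lp1_g0 : PowerSeries.constantCoeff (gs32 C3) = 0 := by
  rw [gs32_eq]
  exact constantCoeff_gsN 3 2 three_ne C3

theorem lp1_gS : gs32 C3 * S32 C3 = X ^ 3 := by
  rw [S32_eq, gs32_eq]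
  exact gsN_mul 3 2 three_ne C3

theorem lp1_Ss : S32 C3 * invOfUnit (S32 C3) 1 = 1 := mul_inv_of lp1_S0

theorem lp1_ps0 : PowerSeries.constantCoeff (ps32 (gs32 C3)) = 1 := by
  simp only [ps32, map_mul, map_pow, map_sub, map_add, map_one, map_ofNat, lp1_g0]
  norm_num

theorem lp1_A0 : PowerSeries.constantCoeff (1 - 9 * gs32 C3) = 1 := by
  simp only [map_mul, map_sub, map_one, map_ofNat, lp1_g0]
  norm_num

theorem lp1_Q0 : PowerSeries.constantCoeff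
    ((1 - 9 * X) * (1 + 18 * gs32 C3 - 27 * gs32 C3 ^ 2)) = 1 := by
  simp only [map_mul, map_pow, map_sub, map_add, map_one, map_ofNat, lp1_g0, constantCoeff_X]
  norm_num

/-! ### The logarithmic derivative -/

theorem lp1_poly (he : Eq32) :
    (3 * S32 C3 - X * derivative C3 (S32 C3)) * ps32 (gs32 C3) = 3 * ns32 (X : PowerSeries C3) := by
  have e1 : Polynomial.derivative
      ((1 - Polynomial.X) * (1 - 9 * Polynomial.X) ^ 3 : Polynomial C3) =
      -(1 - 9 * Polynomial.X) ^ 3 - 27 * (1 - Polynomial.X) * (1 - 9 * Polynomial.X) ^ 2 := by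
    simp only [Polynomial.derivative_sub, Polynomial.derivative_mul,
      Polynomial.derivative_pow, Polynomial.derivative_one, Polynomial.derivative_X,
      Polynomial.derivative_ofNat]
    push_cast
    simp only [map_ofNat]
    ring
  have e2 : Polynomial.derivative
      ((1 - Polynomial.X) ^ 3 * (1 - 9 * Polynomial.X) : Polynomial C3) =
      -3 * (1 - Polynomial.X) ^ 2 * (1 - 9 * Polynomial.X) - 9 * (1 - Polynomial.X) ^ 3 := by
    simp only [Polynomial.derivative_sub, Polynomial.derivative_mul,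
      Polynomial.derivative_pow, Polynomial.derivative_one, Polynomial.derivative_X,
      Polynomial.derivative_ofNat]
    push_cast
    simp only [map_ofNat]
    ring
  have hP : S32 C3 * Polynomial.aeval (gs32 C3)
      ((1 - Polynomial.X) * (1 - 9 * Polynomial.X) ^ 3 : Polynomial C3) =
      (((1 - Polynomial.X) ^ 3 * (1 - 9 * Polynomial.X) : Polynomial C3) : PowerSeries C3) := by
    rw [← Polynomial.coeToPowerSeries.ringHom_apply]
    simp only [map_mul, map_pow, map_sub, map_one, Polynomial.aeval_X, map_ofNat]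
    rw [Polynomial.coeToPowerSeries.ringHom_apply, Polynomial.coe_X]
    linear_combination lp1_eq he
  have h := polyR 3 _ _ lp1_gS hP
  rw [e1, e2] at h
  rw [← Polynomial.coeToPowerSeries.ringHom_apply, ← Polynomial.coeToPowerSeries.ringHom_apply] at h
  simp only [map_mul, map_pow, map_sub, map_neg, map_one, Polynomial.aeval_X, map_ofNat] at h
  rw [Polynomial.coeToPowerSeries.ringHom_apply, Polynomial.coe_X] at h
  rw [ps32, ns32]
  push_cast at h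
  linear_combination h

theorem lp1_hR (he : Eq32) : RelR 3 (S32 C3) (R32 C3) := by
  have h1 : ps32 (gs32 C3) * invOfUnit (ps32 (gs32 C3)) 1 = 1 := mul_inv_of lp1_ps0
  have h2 := lp1_poly he
  have h3 := lp1_Ss
  rw [RelR, R32]
  push_cast
  linear_combination (3 * ns32 (X : PowerSeries C3) * invOfUnit (ps32 (gs32 C3)) 1) * h3 +
    (3 * S32 C3 - X * derivative C3 (S32 C3)) * h1 - invOfUnit (ps32 (gs32 C3)) 1 * h2

/-! ### Norms of numbers -/

theorem lp1_nat (n : ℕ) : ‖(n : C3)‖ ≤ 1 := by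
  rw [d3_ubn_natCast]
  exact_mod_cast Padic.norm_int_le_one (p := 3) n

theorem lp1_int (n : ℤ) : ‖(n : C3)‖ ≤ 1 := by
  have h1 : (n : C3) = algebraMap ℚ_[3] C3 (n : ℚ_[3]) := by rw [map_intCast]
  rw [h1, norm_algebraMap']
  exact Padic.norm_int_le_one n

theorem lp1_three (a k : ℕ) : ‖((3 ^ k * a : ℕ) : C3)‖ ≤ (3 : ℝ)⁻¹ ^ k := by
  have h1 : ((3 ^ k * a : ℕ) : C3) = 3 ^ k * (a : C3) := by push_cast; ring
  rw [h1, norm_mul, norm_pow, norm_three_C3]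
  calc (3 : ℝ)⁻¹ ^ k * ‖(a : C3)‖ ≤ (3 : ℝ)⁻¹ ^ k * 1 :=
        mul_le_mul_of_nonneg_left (lp1_nat a) (by positivity)
    _ = (3 : ℝ)⁻¹ ^ k := mul_one _

theorem lp1_n3 : ‖(3 : C3)‖ ≤ 1 / 3 := by rw [norm_three_C3]; norm_num

theorem lp1_n6 : ‖(6 : C3)‖ ≤ 1 / 3 := by
  have h := lp1_three 2 1
  norm_num at h ⊢
  exact h

theorem lp1_n9 : ‖(9 : C3)‖ ≤ 1 / 9 := by
  have h := lp1_three 1 2
  norm_num at h ⊢
  exact h

theorem lp1_n18 : ‖(18 : C3)‖ ≤ 1 / 9 := by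
  have h := lp1_three 2 2
  norm_num at h ⊢
  exact h

theorem lp1_n27 : ‖(27 : C3)‖ ≤ 1 / 27 := by
  have h := lp1_three 1 3
  norm_num at h ⊢
  exact h

/-! ### The bounds for `S` -/

theorem lp1_coeff (hg : Gr32) (n : ℕ) :
    ‖PowerSeries.coeff n (S32 C3)‖ ≤ (3 : ℝ)⁻¹ ^ ((n + 1) / 2) := by
  have h1 : PowerSeries.coeff n (S32 C3) = ((PowerSeries.coeff n (S32 ℤ) : ℤ) : C3) := by
    have h2 : PowerSeries.map (Int.castRingHom C3) (S32 ℤ) = S32 C3 := by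
      rw [S32_eq, S32_eq]
      exact map_SN 3 2 three_ne ℤ (Int.castRingHom C3)
    rw [← h2, PowerSeries.coeff_map]
    rfl
  obtain ⟨a, ha⟩ := hg n
  rw [h1, ha]
  push_cast
  rw [norm_mul, norm_pow, norm_three_C3]
  calc (3 : ℝ)⁻¹ ^ ((n + 1) / 2) * ‖(a : C3)‖ ≤ (3 : ℝ)⁻¹ ^ ((n + 1) / 2) * 1 :=
        mul_le_mul_of_nonneg_left (lp1_int a) (by positivity)
    _ = (3 : ℝ)⁻¹ ^ ((n + 1) / 2) := mul_one _

theorem lp1_bS (hg : Gr32) : Bd (41 / 40) (2 / 5) (S32 C3 - 1) := by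
  intro n
  rcases Nat.eq_zero_or_pos n with rfl | hn
  · rw [PowerSeries.coeff_zero_eq_constantCoeff_apply, map_sub, lp1_S0, map_one, sub_self,
      norm_zero, zero_mul]
    norm_num
  · rw [map_sub, PowerSeries.coeff_one, if_neg hn.ne', sub_zero]
    obtain ⟨k, hk⟩ : ∃ k, (n + 1) / 2 = k + 1 := ⟨(n + 1) / 2 - 1, by omega⟩
    have h1 := lp1_coeff hg n
    rw [hk] at h1
    have h2 : (41 / 40 : ℝ) ^ n ≤ (41 / 40 : ℝ) ^ (2 * (k + 1)) :=
      pow_le_pow_right₀ (by norm_num) (by omega)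
    calc ‖PowerSeries.coeff n (S32 C3)‖ * (41 / 40 : ℝ) ^ n
        ≤ (3 : ℝ)⁻¹ ^ (k + 1) * (41 / 40 : ℝ) ^ (2 * (k + 1)) :=
          mul_le_mul h1 h2 (by positivity) (by positivity)
      _ = ((3 : ℝ)⁻¹ * (41 / 40) ^ 2) ^ (k + 1) := by rw [pow_mul, ← mul_pow]
      _ ≤ (2 / 5 : ℝ) ^ (k + 1) := pow_le_pow_left₀ (by norm_num) (by norm_num) _
      _ = (2 / 5 : ℝ) ^ k * (2 / 5) := pow_succ _ _
      _ ≤ 1 * (2 / 5) :=
          mul_le_mul_of_nonneg_right (pow_le_one₀ (by norm_num) (by norm_num)) (by norm_num)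
      _ = 2 / 5 := one_mul _

theorem lp1_bS1 (hg : Gr32) : Bd (41 / 40) 1 (S32 C3) := by
  have h1 : Bd (41 / 40) 1 (S32 C3 - 1) := (lp1_bS hg).mono_c (by norm_num)
  have h2 := h1.add (by norm_num) (Bd.one le_rfl)
  rwa [sub_add_cancel] at h2

/-! ### The calculus at a radius `ρ` between `1` and `41/40` -/

section rad

variable {ρ : ℝ}

theorem lp1_cm {a : C3} {r c d : ℝ} {F : PowerSeries C3} (hρ : 0 < ρ) (ha : ‖a‖ ≤ r)
    (hF : Bd ρ c F) (h : r * c ≤ d) : Bd ρ d (C a * F) :=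
  ((Bd.of_C ha).mul hρ hF).mono_c h

theorem lp1_s (h1 : 1 ≤ ρ) (hS : Bd ρ 1 (S32 C3)) : Bd ρ 1 (invOfUnit (S32 C3) 1) :=
  hS.inv (by linarith) lp1_S0 lp1_Ss

theorem lp1_X (h1 : 1 ≤ ρ) (k : ℕ) : Bd ρ (ρ ^ k) ((X : PowerSeries C3) ^ k) :=
  (Bd.X_le (by linarith) le_rfl).pow (by linarith) k

theorem lp1_g (h1 : 1 ≤ ρ) (hS : Bd ρ 1 (S32 C3)) : Bd ρ (ρ ^ 3) (gs32 C3) := by
  rw [gs32]
  exact (lp1_X h1 3).mul1 (by linarith) (lp1_s h1 hS)

variable (h1 : 1 ≤ ρ) (h2 : ρ ≤ 41 / 40)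
include h1 h2

theorem lp1_pw (k : ℕ) : ρ ^ k ≤ (41 / 40 : ℝ) ^ k := pow_le_pow_left₀ (by linarith) h2 k

theorem lp1_A (hS : Bd ρ 1 (S32 C3)) : Bd ρ 1 (1 - 9 * gs32 C3) := by
  have e : (9 : PowerSeries C3) = C 9 := (map_ofNat C 9).symm
  have h3 := lp1_pw h1 h2 3
  norm_num at h3
  rw [e]
  exact (Bd.one le_rfl).sub (by linarith)
    (lp1_cm (by linarith) lp1_n9 (lp1_g h1 hS) (by linarith))

theorem lp1_Q (hS : Bd ρ 1 (S32 C3)) : Bd ρ 1 (1 + 18 * gs32 C3 - 27 * gs32 C3 ^ 2) := by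
  have e : (18 : PowerSeries C3) = C 18 := (map_ofNat C 18).symm
  have e' : (27 : PowerSeries C3) = C 27 := (map_ofNat C 27).symm
  have h3 := lp1_pw h1 h2 3
  have h4 := lp1_pw h1 h2 6
  norm_num at h3 h4
  rw [e, e']
  have h5 : Bd ρ (ρ ^ 6) (gs32 C3 ^ 2) := by
    have h := (lp1_g h1 hS).pow (by linarith) 2
    rwa [← pow_mul] at h
  exact ((Bd.one le_rfl).add (by linarith)
    (lp1_cm (by linarith) lp1_n18 (lp1_g h1 hS) (by linarith))).sub (by linarith)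
    (lp1_cm (by linarith) lp1_n27 h5 (by linarith))

theorem lp1_B : Bd ρ 1 (1 - 9 * (X : PowerSeries C3)) := by
  have e : (9 : PowerSeries C3) = C 9 := (map_ofNat C 9).symm
  rw [e]
  exact (Bd.one le_rfl).sub (by linarith)
    (lp1_cm (by linarith) lp1_n9 (Bd.X_le (by linarith) le_rfl) (by linarith))

theorem lp1_T : Bd ρ 1 (1 - 6 * X - 3 * (X : PowerSeries C3) ^ 2) := by
  have e : (6 : PowerSeries C3) = C 6 := (map_ofNat C 6).symm
  have e' : (3 : PowerSeries C3) = C 3 := (map_ofNat C 3).symm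
  have h3 := lp1_pw h1 h2 2
  norm_num at h3
  rw [e, e']
  exact ((Bd.one le_rfl).sub (by linarith)
    (lp1_cm (by linarith) lp1_n6 (Bd.X_le (by linarith) le_rfl) (by linarith))).sub (by linarith)
    (lp1_cm (by linarith) lp1_n3 (lp1_X h1 2) (by linarith))

omit h2 in
theorem lp1_L : Bd ρ (ρ ^ 2) ((1 - (X : PowerSeries C3)) ^ 2) :=
  ((Bd.one h1).sub (by linarith) (Bd.X_le (by linarith) le_rfl)).pow (by linarith) 2

theorem lp1_i1 (hS : Bd ρ 1 (S32 C3)) : Bd ρ 1 (invOfUnit (ps32 (gs32 C3)) 1) := by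
  refine Bd.inv (F := ps32 (gs32 C3)) (by linarith) ?_ lp1_ps0 (mul_inv_of lp1_ps0)
  exact ((lp1_A h1 h2 hS).pow1 (by linarith) 2).mul1 (by linarith) (lp1_Q h1 h2 hS)

theorem lp1_R (hS : Bd ρ 1 (S32 C3)) : Bd ρ (ρ ^ 2) (R32 C3) := by
  rw [R32]
  have h3 : Bd ρ (ρ ^ 2) (ns32 (X : PowerSeries C3) * invOfUnit (ps32 (gs32 C3)) 1) :=
    ((lp1_L h1).mul1 (by linarith) (lp1_T h1 h2)).mul1 (by linarith) (lp1_i1 h1 h2 hS)
  have h4 := (lp1_s h1 hS).mul (by linarith) h3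
  rwa [one_mul] at h4

theorem lp1_Rc (hS : Bd ρ 1 (S32 C3)) : Bd ρ 1 (Rc32 C3) := by
  rw [Rc32]
  refine ((lp1_T h1 h2).mul1 (by linarith) (lp1_A h1 h2 hS)).mul1 (by linarith) ?_
  exact ((lp1_B h1 h2).mul1 (by linarith) (lp1_Q h1 h2 hS)).inv (by linarith) lp1_Q0
    (mul_inv_of lp1_Q0)

end rad

/-! ### The relation at the cusp -/

theorem lp1_rel (he : Eq32) : R32 C3 * (1 - C 1 * X) = (1 - C 1 * gs32 C3) * Rc32 C3 := by
  have e := lp1_eq he
  have i1 : (1 - 9 * gs32 C3) ^ 2 * (1 + 18 * gs32 C3 - 27 * gs32 C3 ^ 2) *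
      invOfUnit (ps32 (gs32 C3)) 1 = 1 := mul_inv_of lp1_ps0
  have i2 : (1 - 9 * X) * (1 + 18 * gs32 C3 - 27 * gs32 C3 ^ 2) *
      invOfUnit ((1 - 9 * X) * (1 + 18 * gs32 C3 - 27 * gs32 C3 ^ 2)) 1 = 1 := mul_inv_of lp1_Q0
  have hS := lp1_Ss
  rw [R32, Rc32, map_one, one_mul, one_mul, ns32]
  generalize invOfUnit ((1 - 9 * X) * (1 + 18 * gs32 C3 - 27 * gs32 C3 ^ 2)) 1 = v2 at *
  generalize invOfUnit (ps32 (gs32 C3)) 1 = v1 at *
  generalize invOfUnit (S32 C3) 1 = s at *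
  generalize gs32 C3 = g at *
  generalize S32 C3 = S at *
  linear_combination (-(s * (1 - X) ^ 3 * (1 - 6 * X - 3 * X ^ 2) * v1)) * i2 -
    (s * (1 - 6 * X - 3 * X ^ 2) * v1 * (1 + 18 * g - 27 * g ^ 2) * v2) * e +
    ((1 - 6 * X - 3 * X ^ 2) * v1 * (1 + 18 * g - 27 * g ^ 2) * v2 * (1 - g) *
      (1 - 9 * g) ^ 3) * hS +
    ((1 - 6 * X - 3 * X ^ 2) * v2 * (1 - g) * (1 - 9 * g)) * i1

theorem lp1_cS (he : Eq32) (hg : Gr32) : ∃ S1 : PowerSeries C3, Bd (41 / 40) 2 S1 ∧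
    S32 C3 = 1 + (1 - C 1 * X) * S1 := by
  have h0 : PowerSeries.constantCoeff ((1 - 9 * gs32 C3) ^ 3) = 1 := by
    rw [map_pow, lp1_A0, one_pow]
  have hj : (1 - 9 * gs32 C3) ^ 3 * invOfUnit ((1 - 9 * gs32 C3) ^ 3) 1 = 1 := mul_inv_of h0
  have hS := lp1_bS1 hg
  have b1 : Bd (41 / 40) 1 (invOfUnit ((1 - 9 * gs32 C3) ^ 3) 1) :=
    ((lp1_A (by norm_num) le_rfl hS).pow1 (by norm_num) 3).inv (by norm_num) h0 hj
  refine ⟨(1 - X) ^ 2 * (1 - 9 * X) * invOfUnit ((1 - 9 * gs32 C3) ^ 3) 1 - (1 + X + X ^ 2),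
    ?_, ?_⟩
  · refine Bd.sub (by norm_num) ?_ ?_
    · exact (((lp1_L (by norm_num)).mul1 (by norm_num)
        (lp1_B (by norm_num) le_rfl)).mul1 (by norm_num) b1).mono_c (by norm_num)
    · refine Bd.add (by norm_num) (Bd.add (by norm_num) (Bd.one (by norm_num))
        (Bd.X_le (by norm_num) (by norm_num))) ((lp1_X (by norm_num) 2).mono_c (by norm_num))
  · have e := lp1_eq he
    have hgS := lp1_gS
    rw [map_one, one_mul]
    generalize invOfUnit ((1 - 9 * gs32 C3) ^ 3) 1 = j at *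
    generalize gs32 C3 = g at *
    generalize S32 C3 = S at *
    linear_combination j * e - S * (1 - g) * hj + hgS

/-- **The bounds of the pair `(3,2)`.** -/
theorem bnd32 (he : Eq32) (hg : Gr32) : Bnd32 where
  hR := lp1_hR he
  s := ⟨lp1_bS hg, lp1_cS he hg⟩
  c :=
    { rel := lp1_rel he
      bP := (lp1_R (by norm_num) le_rfl (lp1_bS1 hg)).mono_c (by norm_num)
      bPc := (lp1_Rc (by norm_num) le_rfl (lp1_bS1 hg)).mono_c (by norm_num)
      bP1 := by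
        have h := lp1_R le_rfl (by norm_num) ((lp1_bS1 hg).mono_r zero_le_one (by norm_num))
        rwa [one_pow] at h
      bPc1 := lp1_Rc le_rfl (by norm_num) ((lp1_bS1 hg).mono_r zero_le_one (by norm_num)) }

end D32

end GH
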