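import Pool.Agent.GH.LN.PHelp
import Pool.Agent.GH.LN.GhoA
import Pool.Agent.GH.D3.Param3

/-!
# Level `N`, `(3,2)`: the cusp is split off
-/

set_option autoImplicit false

open PowerSeries Filter Topology

noncomputable section

namespace GH

namespace D32

open LN D3

theorem lp12_neg_sub {x : C3} (hx : ‖x‖ ≤ 1) (l : ℕ) : ‖(-x) - (l : C3)‖ ≤ 1 := by
  rw [sub_eq_add_neg]
  refine (IsUltrametricDist.norm_add_le_max _ _).trans (max_le ?_ ?_)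
  · rw [norm_neg]
    exact hx
  · rw [norm_neg]
    exact IsUltrametricDist.norm_natCast_le_one C3 l

theorem lp12_wx {x : C3} (hx : ‖x‖ ≤ 1) : ‖wx3 (4 * x)‖ ≤ 1 := by
  have h4 : ‖(4 : C3)‖ ≤ 1 := by
    exact_mod_cast IsUltrametricDist.norm_natCast_le_one C3 4
  have h1 : ‖4 * x‖ ≤ 1 := by
    rw [norm_mul]
    exact mul_le_one₀ h4 (norm_nonneg _) hx
  rw [norm_wx3 h1]
  linarith

theorem cen32 (hb : Bnd32) (hc : CentralTheorem32) : Cen32 := by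
  intro x hx
  have hS0 : PowerSeries.constantCoeff (S32 C3) = 1 := constantCoeff_SN 3 2 three_ne C3
  have hg : gs32 C3 * S32 C3 = X ^ 3 := gsN_mul 3 2 three_ne C3
  have hg0 : PowerSeries.constantCoeff (gs32 C3) = 0 := constantCoeff_gsN 3 2 three_ne C3
  have hr : (0 : ℝ) < 41 / 40 := by norm_num
  have hr1 : (1 : ℝ) < 41 / 40 := by norm_num
  have hs := lp12_neg_sub hx
  have hT : Bd (41 / 40) 1 (GH.ppow (S32 C3) (-x)) :=
    Bd.ppow hr hb.s.bS hS0 fac3 (by norm_num) hs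
  obtain ⟨S1, hS1, hS1e⟩ := hb.s.cS
  obtain ⟨T1, hT1, hT1e⟩ := ppow_div hr hb.s.bS hS0 fac3 (by norm_num) hs hS1 hS1e
  have hT' : Bd 1 1 (GH.ppow (S32 C3) (-x)) := hT.mono_r zero_le_one hr1.le
  have hS : Bd (41 / 40) 1 (S32 C3) := by
    have h := (Bd.one (K := C3) (ρ := 41 / 40) le_rfl).add hr.le
      (hb.s.bS.mono_c (by norm_num : (2 / 5 : ℝ) ≤ 1))
    rwa [add_sub_cancel] at h
  have hM : Mat32 x = mt 3 (S32 C3) (R32 C3 * GH.ppow (S32 C3) (-x)) := by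
    funext i j
    exact mat_eq_mt 3 hS0 _ x i j
  have ha : (1 : C3) * 1 = 1 := one_mul 1
  refine np_cusp (p := 3) (ρ := 41 / 40) (c := 2) (S := S32 C3) (g := gs32 C3)
    (P := R32 C3 * GH.ppow (S32 C3) (-x)) (P' := Rc32 C3 * GH.ppow (S32 C3) (-x))
    (by norm_num) hr1 hg hg0 hS0 hM rfl hS (hb.c.bP.mul1 hr hT) (hb.c.bPc.mul1 hr hT)
    (hb.c.bP1.mul1 one_pos hT') (hb.c.bPc1.mul1 one_pos hT') ha ?_ ?_
    (ghostN_zero_eq 3 2 0 _) (fun n ↦ norm_ghostN_le 3 2 0 (lp12_wx hx) n) (hc x hx)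
  · linear_combination GH.ppow (S32 C3) (-x) * hb.c.rel
  · rw [hM]
    exact ev_cusp (by norm_num) hr1 hg hg0 hS0 hb.hR hS hb.c.bPc hT1 ha hb.c.rel hT1e

end D32

end GH
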