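import Pool.Agent.GH.LN.EStm
import Pool.Agent.GH.LN.GrN

/-! The equation of `S` and the growth of `S`, `(p, N) = (3, 2)`. -/

open PowerSeries Filter Topology

noncomputable section

namespace GH

namespace D32

/-! ### the equation -/

theorem eq32 (h : LN.K32) : Eq32 := by
  unfold Eq32
  apply LN.sbN_inj 3 2 ℤ
  have hA : LN.AN 3 2 ℤ ≠ 0 := by
    intro h0
    have h1 := LN.constantCoeff_AN 3 2 ℤ
    rw [h0, map_zero] at h1
    exact zero_ne_one h1
  have hS : LN.sbN 3 2 ℤ (S32 ℤ) = (LN.SN 3 2 three_ne ℤ).subst (hauptN 3 2 ℤ) := by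
    rw [S32_eq, LN.sbN_apply]
  have hg : LN.sbN 3 2 ℤ (gs32 ℤ) = (hauptN 3 2 ℤ).expand 3 three_ne := by
    rw [gs32_eq, LN.sbN_apply, LN.gsN_subst]
  rw [map_mul, map_mul, map_pow, map_sub, map_sub, map_mul, map_mul, map_pow, map_sub, map_sub,
    map_mul, map_one, map_ofNat, LN.sbN_X, hS, hg]
  have h1 := h.rel
  rw [LN.AN_expand] at h1
  refine mul_left_cancel₀ hA ?_
  linear_combination h1

/-! ### growth -/

/-- `1/S`. -/
def x32_T : PowerSeries ℤ := invOfUnit (S32 ℤ) 1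

lemma x32_const : PowerSeries.constantCoeff (S32 ℤ) = 1 := LN.constantCoeff_SN 3 2 three_ne ℤ

lemma x32_T_mul : S32 ℤ * x32_T = 1 :=
  PowerSeries.mul_invOfUnit _ _ (by rw [x32_const]; simp)

lemma x32_gs : gs32 ℤ = X ^ 3 * x32_T := rfl

/-- `1 - 9g`. -/
def x32_W : PowerSeries ℤ := 1 - C (9 : ℤ) * (X ^ 3 * x32_T)

/-- `1/(1-9g)^3`. -/
def x32_V : PowerSeries ℤ := invOfUnit (x32_W ^ 3) 1

lemma x32_constW : PowerSeries.constantCoeff (x32_W ^ 3) = 1 := by
  unfold x32_W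
  simp

lemma x32_V_mul : x32_W ^ 3 * x32_V = 1 :=
  PowerSeries.mul_invOfUnit _ _ (by rw [x32_constW]; simp)

/-- the polynomial part -/
def x32_P : PowerSeries ℤ := 1 + C (-12 : ℤ) * (X ^ 1 * 1) + C (30 : ℤ) * (X ^ 2 * 1) +
  C (-27 : ℤ) * (X ^ 3 * 1) + C (9 : ℤ) * (X ^ 4 * 1)

/-- the remainder -/
def x32_Q : PowerSeries ℤ := C (-27 : ℤ) * (X ^ 6 * x32_T ^ 1) + C (243 : ℤ) * (X ^ 9 * x32_T ^ 2) +
  C (-729 : ℤ) * (X ^ 12 * x32_T ^ 3)

lemma x32_step (h : Eq32) : S32 ℤ = (x32_P + x32_Q) * x32_V := by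
  have h1 : S32 ℤ * (1 - gs32 ℤ) * (1 - 9 * gs32 ℤ) ^ 3 =
    (1 - (X : PowerSeries ℤ)) ^ 3 * (1 - 9 * X) := h
  have h2 := x32_T_mul
  have h3 := x32_V_mul
  rw [x32_gs] at h1
  have h4 : S32 ℤ * x32_W ^ 3 = x32_P + x32_Q := by
    unfold x32_W x32_P x32_Q
    simp only [map_neg, map_ofNat]
    linear_combination h1 + X ^ 3 * (1 - 9 * (X ^ 3 * x32_T)) ^ 3 * h2
  rw [← h4, mul_assoc, h3, mul_one]

lemma x32_PP (m : ℕ) : LN.Gr 3 2 m x32_P := by
  unfold x32_P
  have h1 := LN.gr_one (p := 3) (d := 2) (by norm_num) m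
  exact ((((h1.add (h1.CX (by norm_num) _ 1 1 (by norm_num) (by norm_num) (by omega))).add
    (h1.CX (by norm_num) _ 1 2 (by norm_num) (by norm_num) (by omega))).add
    (h1.CX (by norm_num) _ 2 3 (by norm_num) (by norm_num) (by omega))).add
    (h1.CX (by norm_num) _ 2 4 (by norm_num) (by norm_num) (by omega)))

theorem gr32 (h : Eq32) : Gr32 := by
  have h1 : LN.GrA 3 2 (S32 ℤ) := by
    refine LN.grA_of_step fun m hm ↦ ?_
    have hT : LN.Gr 3 2 m x32_T := hm.inv (by norm_num) x32_const x32_T_mul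
    have hQ : LN.Gr 3 2 (m + 1) x32_Q := by
      unfold x32_Q
      exact (((hT.pow (by norm_num) 1).CX (by norm_num) _ 3 6 (by norm_num) (by norm_num)
        (by omega)).add
        ((hT.pow (by norm_num) 2).CX (by norm_num) _ 5 9 (by norm_num) (by norm_num)
        (by omega))).add
        ((hT.pow (by norm_num) 3).CX (by norm_num) _ 6 12 (by norm_num) (by norm_num) (by omega))
    have hW : LN.Gr 3 2 (m + 1) x32_W := by
      unfold x32_W
      exact (LN.gr_one (by norm_num) _).sub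
        (hT.CX (by norm_num) _ 2 3 (by norm_num) (by norm_num) (by omega))
    have hV : LN.Gr 3 2 (m + 1) x32_V :=
      (hW.pow (by norm_num) 3).inv (by norm_num) x32_constW x32_V_mul
    rw [x32_step h]
    exact ((x32_PP _).add hQ).mul (by norm_num) hV
  intro n
  exact h1 n

end D32

end GH
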