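import Pool.Agent.GH.LN.PStm
import Pool.Agent.GH.LN.CompN
import Pool.Agent.GH.D3.ClStab3
import Pool.Agent.GH.D3.UBound3

/-!
# `(3, 2)`: the glue and the decay, from level one
-/

open PowerSeries Filter Topology

noncomputable section

namespace GH

namespace LN

open GP DP D3

section

variable {K : Type*} [Field K] [CharZero K]

theorem lp6_pow {u : PowerSeries K} (hu : PowerSeries.constantCoeff u = 1) (n : ℕ) (s : K) :
    ppow (u ^ (n + 1)) s = ppow u (((n + 1 : ℕ) : K) * s) := by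
  induction n with
  | zero => rw [zero_add, pow_one, Nat.cast_one, one_mul]
  | succ n ih =>
    rw [pow_succ, ub_ppow_mul (by rw [map_pow, hu, one_pow]) hu, ih, ← ub_ppow_add hu]
    congr 1
    push_cast
    ring

omit [CharZero K] in
theorem lp6_subst {u f : PowerSeries K} (hu : PowerSeries.constantCoeff u = 1)
    (hf : PowerSeries.constantCoeff f = 0) (s : K) :
    (ppow u s).subst f = ppow (u.subst f) s := by
  have hs : HasSubst f := HasSubst.of_constantCoeff_zero' hf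
  unfold ppow
  rw [subst_comp_subst_apply (ub_hs hu) hs]
  congr 1
  rw [← coe_substAlgHom hs, map_sub, map_one]

end

section

variable {K : Type*} [NormedField K] [IsUltrametricDist K] {ρ c : ℝ} {S : PowerSeries K}

theorem lp6_bd_pow (hρ : 0 < ρ) (hS : Bd ρ c (S - 1)) (hc : c ≤ 1) (n : ℕ) :
    Bd ρ c (S ^ n - 1) := by
  have h1 : Bd ρ 1 S := by
    have h2 := (hS.mono_c hc).add hρ.le (Bd.one (le_refl (1 : ℝ)))
    rwa [sub_add_cancel] at h2
  induction n with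
  | zero =>
    rw [pow_zero, sub_self]
    exact Bd.zero hS.nonneg
  | succ n ih =>
    have e : S ^ (n + 1) - 1 = (S - 1) * S ^ n + (S ^ n - 1) := by ring
    rw [e]
    exact (hS.mul1 hρ (h1.pow1 hρ n)).add hρ.le ih

end

theorem lp6_fac (n : ℕ) : ‖((n.factorial : ℕ) : C3)‖⁻¹ ≤ (7 / 4 : ℝ) ^ n := by
  cases n with
  | zero => simp
  | succ n =>
    obtain ⟨v, hv, hvn⟩ := d3_ubn_fac n
    rw [hv]
    calc (3 : ℝ) ^ v ≤ ((7 / 4 : ℝ) ^ 2) ^ v :=
          pow_le_pow_left₀ (by norm_num) (by norm_num) v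
      _ = (7 / 4 : ℝ) ^ (2 * v) := by rw [pow_mul]
      _ ≤ (7 / 4 : ℝ) ^ (n + 1) := pow_le_pow_right₀ (by norm_num) (by omega)

theorem lp6_nine : ‖(9 : C3)‖ = 1 / 9 := by
  have h : (9 : C3) = 3 ^ 2 := by norm_num
  rw [h, norm_pow, norm_three_C3]
  norm_num

/-- `9 X` is small. -/
theorem lp6_bd9 : Bd (41 / 40) (1 / 6) ((1 - 9 * X : PowerSeries C3) - 1) := by
  have e : (1 - 9 * X : PowerSeries C3) - 1 = C (-9 : C3) * (X ^ 1 * 1) := by
    rw [map_neg, map_ofNat]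
    ring
  rw [e]
  refine Bd.CX (c := 1) (by norm_num) (Bd.one le_rfl) ?_
  rw [norm_neg, lp6_nine]
  norm_num

theorem lp6_c9 : PowerSeries.constantCoeff (1 - 9 * X : PowerSeries C3) = 1 := by
  rw [map_sub, map_mul, constantCoeff_X, mul_zero, map_one, sub_zero]

theorem lp6_bd1 : Bd (41 / 40) 1 (1 - 9 * X : PowerSeries C3) := by
  have h2 := (lp6_bd9.mono_c (by norm_num : (1 / 6 : ℝ) ≤ 1)).add (by norm_num)
    (Bd.one (le_refl (1 : ℝ)))
  rwa [sub_add_cancel] at h2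

/-- `(1 - 9X)^8` to the power `s`. -/
theorem lp6_Q {y : C3} (hy : ‖y‖ ≤ 1) : Bd (41 / 40) 1 (ppow ((1 - 9 * X : PowerSeries C3) ^ 8)
    (y / 3)) := by
  refine Bd.ppow_gen (by norm_num) (lp6_bd_pow (by norm_num) lp6_bd9 (by norm_num) 8)
    (by rw [map_pow, lp6_c9, one_pow]) (t := 7 / 4) (m := 3) lp6_fac (by norm_num) fun l ↦ ?_
  rw [sub_eq_add_neg]
  refine (IsUltrametricDist.norm_add_le_max _ _).trans (max_le (d3_ubn_third hy) ?_)
  rw [norm_neg]
  exact (d3_ubn_nat l).trans (by norm_num)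

/-- The hauptmodul of level three in terms of that of level six. -/
def lp6r : PowerSeries C3 := X * (1 - X) ^ 2 * invOfUnit ((1 - 9 * X) ^ 2) 1

theorem lp6r_c : PowerSeries.constantCoeff lp6r = 0 := by
  unfold lp6r
  rw [map_mul, map_mul, constantCoeff_X, zero_mul, zero_mul]

theorem lp6_inv : (1 - 9 * X : PowerSeries C3) ^ 2 * invOfUnit ((1 - 9 * X) ^ 2) 1 = 1 :=
  mul_inv_of (by rw [map_pow, lp6_c9, one_pow])

theorem lp6r_bd : Bd (41 / 40) (7 / 6) lp6r := by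
  have h0 : (0 : ℝ) < 41 / 40 := by norm_num
  have hX : Bd (41 / 40) (41 / 40) (X : PowerSeries C3) := Bd.X_le h0.le le_rfl
  have h1 : Bd (41 / 40) (41 / 40) (1 - X : PowerSeries C3) :=
    (Bd.one (by norm_num)).sub h0.le hX
  have h2 : Bd (41 / 40) 1 (invOfUnit ((1 - 9 * X : PowerSeries C3) ^ 2) 1) :=
    Bd.inv h0 (lp6_bd1.pow1 h0 2) (by rw [map_pow, lp6_c9, one_pow]) lp6_inv
  exact ((hX.mul h0 (h1.pow h0 2)).mul1 h0 h2).mono_c (by norm_num)

theorem lp6_f1 (hK : K32) : hauptmodul 3 C3 * (1 - 9 * hauptN 3 2 C3) ^ 2 =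
    hauptN 3 2 C3 * (1 - hauptN 3 2 C3) ^ 2 := by
  have h1 := congrArg (PowerSeries.map (Int.castRingHom C3)) hK.f1
  simp only [map_mul, map_pow, map_sub, map_one, map_ofNat, map_hauptmodul, map_hauptN] at h1
  exact h1

theorem lp6_b1 (hK : K32) : bser C3 ^ 12 = AN 3 2 C3 ^ 3 * (1 - 9 * hauptN 3 2 C3) ^ 8 := by
  have h1 := congrArg (PowerSeries.map (Int.castRingHom C3)) hK.b1
  simp only [map_mul, map_pow, map_sub, map_one, map_ofNat, d3_cs_map_bser, map_hauptN,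
    map_AN] at h1
  exact h1

theorem lp6_hr (hK : K32) : hauptmodul 3 C3 = lp6r.subst (hauptN 3 2 C3) := by
  have hs : HasSubst (hauptN 3 2 C3) := fx_hasSubst 3 2
  have h1 := lp6_f1 hK
  have h2 := congrArg (substAlgHom (R := C3) hs) lp6_inv
  rw [map_mul, map_pow, map_sub, map_one, map_mul, map_ofNat, substAlgHom_X] at h2
  have h3 : lp6r.subst (hauptN 3 2 C3) = hauptN 3 2 C3 * (1 - hauptN 3 2 C3) ^ 2 *
      substAlgHom (R := C3) hs (invOfUnit ((1 - 9 * X) ^ 2) 1) := by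
    rw [← coe_substAlgHom hs]
    unfold lp6r
    rw [map_mul, map_mul, map_pow, map_sub, map_one, substAlgHom_X]
  rw [h3]
  linear_combination (-(hauptmodul 3 C3)) * h2 +
    substAlgHom (R := C3) hs (invOfUnit ((1 - 9 * X) ^ 2) 1) * h1

theorem lp6_B (hK : K32) (y : C3) : bPow (4 * y) = D32.APow32 y *
    (ppow ((1 - 9 * X : PowerSeries C3) ^ 8) (y / 3)).subst (hauptN 3 2 C3) := by
  have hs : HasSubst (hauptN 3 2 C3) := fx_hasSubst 3 2
  have hA : PowerSeries.constantCoeff (AN 3 2 C3) = 1 := constantCoeff_AN 3 2 C3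
  have hb : PowerSeries.constantCoeff (bser C3) = 1 := by
    unfold bser
    rw [map_mul, map_pow, fx_constantCoeff_euler, constantCoeff_inv (fx_constantCoeff_euler C3 _),
      one_pow, one_mul]
  have hF : PowerSeries.constantCoeff (1 - 9 * hauptN 3 2 C3) = 1 := by
    rw [map_sub, map_mul, constantCoeff_hauptN, mul_zero, map_one, sub_zero]
  have h1 : bPow (4 * y) = ppow (bser C3 ^ 12) (y / 3) := by
    unfold bPow
    have e : bser C3 ^ 12 = (bser C3 ^ 3) ^ (3 + 1) := by ring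
    rw [e, lp6_pow (by rw [map_pow, hb, one_pow]) 3]
    congr 1
    push_cast
    ring
  have h2 : ppow (AN 3 2 C3 ^ 3) (y / 3) = D32.APow32 y := by
    unfold D32.APow32
    rw [D32.A32_eq]
    have e : AN 3 2 C3 ^ 3 = AN 3 2 C3 ^ (2 + 1) := rfl
    rw [e, lp6_pow hA 2]
    congr 1
    push_cast
    ring
  have h3 : (ppow ((1 - 9 * X : PowerSeries C3) ^ 8) (y / 3)).subst (hauptN 3 2 C3) =
      ppow ((1 - 9 * hauptN 3 2 C3) ^ 8) (y / 3) := by
    rw [lp6_subst (by rw [map_pow, lp6_c9, one_pow]) (constantCoeff_hauptN 3 2)]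
    congr 1
    rw [← coe_substAlgHom hs, map_pow, map_sub, map_one, map_mul, map_ofNat, substAlgHom_X]
  rw [h1, lp6_b1 hK, ub_ppow_mul (by rw [map_pow, hA, one_pow]) (by rw [map_pow, hF, one_pow]),
    h2, h3]

end LN

namespace D32

open GP DP D3

/-- The glue for `(3, 2)`. -/
theorem glu32 (h : LN.Tr3) (hK : LN.K32) :
    LN.GluN 3 2 (fun y ↦ D3.wx3 (4 * y)) (fun y ↦ APow32 y) := by
  intro E hE
  obtain ⟨u, hu, -⟩ := h E hE
  have key : ∀ y : C3, ‖y‖ ≤ 1 → ∃ v : ℕ → C3, v 0 = 1 ∧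
      (∀ n, ‖v n‖ * (41 / 40 : ℝ) ^ n ≤ 1) ∧
      evSp (wx3 (4 * y)) E = APow32 y * (PowerSeries.mk v).subst (hauptN 3 2 C3) := by
    intro y hy
    have h4 : ‖4 * y‖ ≤ 1 := by
      rw [norm_mul]
      have h5 := d3_ubn_nat 4
      push_cast at h5
      exact mul_le_one₀ h5 (norm_nonneg _) hy
    obtain ⟨h5, h6, h7⟩ := hu (4 * y) h4
    refine LN.glueN_of (ρ := 41 / 40) (R := 7 / 6) LN.lp6r_c (LN.lp6_hr hK) (by norm_num)
      (by norm_num) LN.lp6r_bd (u := fun n ↦ u n (4 * y)) h5 (fun n ↦ ?_) h7 (LN.lp6_B hK y)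
      (LN.lp6_Q hy) ?_
    · refine le_trans ?_ (h6 n)
      exact mul_le_mul_of_nonneg_left (pow_le_pow_left₀ (by norm_num) (by norm_num) n)
        (norm_nonneg _)
    · exact ub_const_ppow (by rw [map_pow, LN.lp6_c9, one_pow]) _
  choose! v hv using key
  exact ⟨fun n y ↦ v y n, fun y hy ↦ hv y hy⟩

/-- The decay for `(3, 2)`. -/
theorem ph32 (h : LN.Tr3) (hK : LN.K32) : LN.PhN 3 2 := by
  intro E hE w hw l
  obtain ⟨u, -, hu⟩ := h E hE
  have hw1 : ‖w‖ < 1 := lt_of_le_of_lt hw (by norm_num)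
  exact LN.phiN_of E hE LN.lp6r_c (LN.lp6_hr hK) (by norm_num) (by norm_num) LN.lp6r_bd hw1
    (hu w hw) l

end D32

end GH
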