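import Pool.Agent.GH.LN.PHelp

/-!
# The matrix of `U_3` for `(3, 2)`
-/

open PowerSeries Filter Topology

noncomputable section

namespace GH

namespace D32

open LN D3 GP DP

theorem um32 (hb : Bnd32) : UM32 := by
  intro x
  have hg0 : PowerSeries.constantCoeff (gs32 C3) = 0 := LN.constantCoeff_gsN 3 2 three_ne C3
  have hV1 : (1 - gs32 C3) * invOfUnit (1 - gs32 C3) 1 = 1 :=
    mul_inv_of (by rw [map_sub, map_one, hg0, sub_zero])
  have hP : R32 C3 * ((1 - X) * invOfUnit (1 - gs32 C3) 1) = Rc32 C3 := by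
    have h1 := hb.c.rel
    rw [map_one, one_mul, one_mul] at h1
    linear_combination (invOfUnit (1 - gs32 C3) 1) * h1 + Rc32 C3 * hV1
  have hc : cuspN 3 2 C3 = 1 - hauptN 3 2 C3 := by
    unfold cuspN
    rw [if_neg (by norm_num), if_pos rfl]
  have hW0 : PowerSeries.constantCoeff (cuspN 3 2 C3) = 1 := by
    rw [hc, map_sub, map_one, constantCoeff_hauptN, sub_zero]
  have hs : HasSubst (hauptN 3 2 C3) := LN.fx_hasSubst 3 2
  have hV2 : (1 - gs32 C3).subst (hauptN 3 2 C3) =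
      1 - (hauptN 3 2 C3).expand 3 three_ne := by
    rw [← LN.gsN_subst 3 2 three_ne C3, ← coe_substAlgHom hs, map_sub, map_one]
    rfl
  have hV3 : (1 - gs32 C3).subst (hauptN 3 2 C3) *
      (invOfUnit (1 - gs32 C3) 1).subst (hauptN 3 2 C3) = 1 := by
    rw [← subst_mul hs, hV1, ← coe_substAlgHom hs, map_one]
  have hV4 : ((1 - X : PowerSeries C3)).subst (hauptN 3 2 C3) = 1 - hauptN 3 2 C3 := by
    rw [← coe_substAlgHom hs, map_sub, map_one, coe_substAlgHom, subst_X hs]
  have hW : cuspN 3 2 C3 = (cuspN 3 2 C3).expand 3 (Fact.out : Nat.Prime 3).ne_zero *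
      ((1 - X) * invOfUnit (1 - gs32 C3) 1).subst (hauptN 3 2 C3) := by
    rw [hc, subst_mul hs, hV4, map_sub, map_one]
    rw [hV2] at hV3
    linear_combination (-(1 - hauptN 3 2 C3)) * hV3
  exact isUMatN_mt hb.hR hW0 hW hP x

end D32

end GH
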