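import Pool.Agent.GH.LN.PHelp

/-!
# Level `N`: the matrix of `U_3` for `(3, 2)`
-/

open PowerSeries Filter Topology

noncomputable section

namespace GH

namespace D32

open LN D3

theorem lpy_const : PowerSeries.constantCoeff (1 - gs32 C3) = 1 := by
  have hg0 : PowerSeries.constantCoeff (gs32 C3) = 0 := constantCoeff_gsN 3 2 three_ne C3
  rw [map_sub, map_one, hg0, sub_zero]

/-- `R (1-h)/(1-g) = R_c`. -/
theorem lpy_rel (hb : Bnd32) : R32 C3 * ((1 - X) * invOfUnit (1 - gs32 C3) 1) =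
    Rc32 C3 := by
  have hi := mul_inv_of lpy_const
  have c1 := hb.c.rel
  rw [map_one, one_mul, one_mul] at c1
  linear_combination invOfUnit (1 - gs32 C3) 1 * c1 + Rc32 C3 * hi

theorem lpy_W : cuspN 3 2 C3 = 1 - hauptN 3 2 C3 := by
  unfold cuspN
  norm_num

/-- `1 - f = (1 - f(q³)) V(f)`. -/
theorem lpy_cusp : cuspN 3 2 C3 = (cuspN 3 2 C3).expand 3 three_ne *
    ((1 - X) * invOfUnit (1 - gs32 C3) 1).subst (hauptN 3 2 C3) := by
  have hgf : sbN 3 2 C3 (gs32 C3) = (hauptN 3 2 C3).expand 3 three_ne := by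
    rw [sbN_apply]
    exact gsN_subst 3 2 three_ne C3
  have hi := congrArg (sbN 3 2 C3) (mul_inv_of lpy_const)
  rw [map_mul, map_sub, map_one, hgf] at hi
  rw [← sbN_apply, lpy_W, map_sub, map_one, map_mul, map_sub, map_one, sbN_X]
  linear_combination (-(1 - hauptN 3 2 C3)) * hi

/-- The matrix of `U_3` in the basis `A^x (1-f) f^j`. -/
theorem um32y (hb : Bnd32) : UM32 := by
  intro x
  have h0 : PowerSeries.constantCoeff (cuspN 3 2 C3) = 1 := by
    rw [lpy_W, map_sub, map_one, constantCoeff_hauptN]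
    norm_num
  exact isUMatN_mt (p := 3) (N := 2) (R := R32 C3)
    (V := (1 - X) * invOfUnit (1 - gs32 C3) 1) (Pc := Rc32 C3) (W := cuspN 3 2 C3)
    hb.hR h0 lpy_cusp (lpy_rel hb) x

end D32

end GH
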